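import Pool.Agent.Lib_helper46.AC.Main

/-!
# Vanishing cycles exclude Tate classes

Let `p` be an odd prime, `K` a number field, `E` a field with embeddings in `ℂ_[p]` and in the
algebraic closure of `ℚ_[ℓ]`, `R` a continuous representation of degree `y + m` of the absolute
Galois group of `K` over `ℂ_[p]`, `y ≠ 1`, and `ρ` an `ℓ`-adic representation that is compatible
with `R`. Suppose that `R(j) = (1 + L a, b; L c, d)` with integral blocks, `0 < |L| < 1`, `|L| ^ 3`
different from `|1 - x|` for all roots of unity `x`: the Galois group preserves two neighbouring
lattices and acts trivially on the quotient of dimension `y`. Suppose that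

* (1) there are elements `s_i` that act by the Picard–Lefschetz formula to first order: modulo
  `L` times the maximal ideal `s_i` is `x ↦ x + L Q(v_i, x) v_i` on the quotient of dimension `y`,
  where the vanishing cycles `v_i` span this space and are connected by `Q(v_i, v_k) ≠ 0`;
* (2) for some `g₀` the determinant of `d(g₀) - x` is a unit for all roots of unity `x` of degree at
  most `y + m` over `E` (this is empty if `m = 0`).

Then no open subgroup of the Galois group acts trivially on a nonzero subquotient of `ρ(j)`. This
holds for all `ρ` that are compatible with `R`, for all primes `ℓ`.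

Example (lines). Let `l₁, …, l_r`, `r ≥ 5`, be linear forms in three variables over `K₀`, no three of
them with a common zero, `p ≥ 5` a prime, `b₁, …, b_r` integers that are prime to `p`, `p ^ n` a
divisor of `∑ b_i`, and let every determinant `det(l_i, l_j, l_k)` have a private prime: a prime
ideal that does not contain `p`, divides it to an order prime to `p` and divides none of the other
determinants. Then for all `ℓ` and over all number fields the Tate conjecture for divisors holds for
the smooth projective models of the surface `w ^ (p ^ n) = l₁ ^ b₁ ⋯ l_r ^ b_r`. Let `U` be the
complement of the lines, `χ` a character of order `p ^ n` of its fundamental group with the local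
exponents `a_i` (proportional to the `b_i`), `ζ` a root of unity of order `p ^ n`, `K = K₀(ζ)`,
`E = ℚ(ζ)`, `L = 1 - ζ`, `j = 1`. Then `V = H²_c(U, L_χ) = H²(U, L_χ)` is pure of weight two. The
Galois group acts trivially on `H²(U, O_χ) ⊗ F_p = H²(U, F_p)`; this is the space `Z` of the
functions on the nodes with values in `F_p` whose (signed) sum is zero on every line, and
`H²(U, O_χ)` modulo torsion and modulo `L` is `Y = Z / (a ∧ H)`, `H = {b : ∑ b_i = 0}`,
`(a ∧ b)(x) = a_i b_j - a_j b_i` for the node `x` of `l_i` and `l_j`; so `m = 0` and `y` is the
binomial coefficient of `r - 2` and `2`. The form `Q(n) = ∑ n(x) ^ 2 / (a_i a_j)` is nondegenerate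
on `Y`. At a private prime of `det(l_i, l_j, l_k)` three lines become concurrent, and a generator of
the tame inertia group acts as a power, prime to `p`, of the pseudo-reflection
`x ↦ x - L a_i a_j a_k Q(δ, x) δ` modulo `L` times the maximal ideal, where the vanishing cycle `δ`
is the triangle of the three nodes (Picard–Lefschetz formula for twisted cycles: the exact factor is
`(1 - ζ ^ a_i) (1 - ζ ^ a_j) (1 - ζ ^ a_k)`, and the intersection form at a node has the denominator
`(1 - ζ ^ a_i) (1 - ζ ^ a_j)`). The triangles span `Z`, two of them with exactly one common node are
not orthogonal, and for `r ≥ 5` they are connected. The other characters are treated in the same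
way.

Example (curves). Let `C₁, …, C_r`, `r ≥ 2`, be curves in the plane over `K₀`, of arbitrary degrees
`d_i`, irreducible over `Qbar` and smooth (or at least unibranch), which meet transversally in smooth
points, without triple points, let the intersection points (nodes) be defined over `K₀`, and let
`J_i` be the Jacobians of the smooth models. Let `χ` have local exponents `a_i` that are prime to
`p`, `∑ a_i d_i = 0`, and let `p` be prime to one `d_i`. Then `V = H²_c(U, L_χ)` is pure of weight
two; the two lattices are `H²_c(U, O_χ)` and `H²(U, O_χ)` modulo torsion (up to powers of `L`), `d`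
is the direct sum of the `J_i[p]`, and `Y`, `Q` are as above, with `H = {b : ∑ b_i d_i = 0}`. If the
nodes `x`, `x'`, `x''` of the pairs `C_i`, `C_j`; `C_i`, `C_k`; `C_j`, `C_k` collide modulo a prime
of `K` that is not over `p`, to an order prime to `p`, and the reduction of the `C_i` has no other
degeneration, then the inertia group acts as above, with the triangle of the nodes as the vanishing
cycle. Similarly, if only two nodes `x`, `x'` of `C_i` and `C_j` collide (a simple tangency) the
vanishing cycle is `x - x'` and the factor is `(a_i + a_j) a_i a_j`. If every triple of nodes as
above has such a prime (for `r = 2`: every pair of nodes, and `d₁ ≠ d₂` modulo `p`) then (1) holds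
for `p ≥ 5`. The exceptions are at most four lines (quotients of Fermat surfaces) and two lines and a
conic with `a₁ = a₂ = - a₃` (conic bundles). It is enough that the triples of nodes with private
primes span `Y` and are connected.

(2) holds for large `p`: there is a prime `q` such that `(π / π') ^ c` is not a root of unity for
all `c > 0` and all eigenvalues `π`, `π'` of Frobenius on the `J_i` with `π π' = q`; the product of
the `2 c`-th power of this Frobenius and the inverse of the homothety `q ^ c`, which is in the image
of the Galois group for a suitable `c` (Serre), is trivial on the roots of unity of order `p` and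
has the eigenvalues `(π / π') ^ c`. If all `C_i` are lines and conics then `m = 0` and (2) is empty.

For `z ^ p = f(x ^ p, y ^ p)` (branched along `f = 0` and three lines) it is enough that each of the
coefficients of `f` at the vertices has a private prime, and (for the characters that are ramified
only at `f = 0` and one line) also the discriminants of the polynomials of the edges, with large
Galois groups. So the Tate conjecture for divisors holds, for all `ℓ` and over all number fields,
for `f = 2 x² + 3 y² + 5 + 3 x + y + x y` and all primes `p ≥ 7` (private primes 2, 3, 5; the nodes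
are defined over the field of `√-31`, `√-59`, `√-23`), and, with a branch curve of genus one, for
`f = 2 x³ + 3 x² y - x y² + 3 y³ - x² - 2 y² - x - y + 5` and all primes `p ≥ 23` (private primes 2,
3, 5 of the vertices, 7 and 229, 47 and 53, 23 and 233 of the edges; the Jacobian is semistable
since the discriminant `-1777 · 17870483` is squarefree, so its mod `p` representation is surjective
(Mazur), and `p + 1` or `p - 1` has a divisor `k` with `φ(k) > 9`).

The plane can be replaced by a smooth projective rational surface whose Picard group modulo `p` is
generated by the classes of the `C_i`, if `U` is affine and the graph is connected.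

Proof idea. The residual matrices of the double commutators `[s_i, [s_i, s_k]]`, at depth `L ^ 3`,
are symmetric of rank one or two with respect to `Q`; a product `w` of them is
`1 + L ^ 3 (α, β; γ, δ)` with `γ = 0` residually and `α` invertible: the rank grows with the
connected set of vanishing cycles. Let `h` be a power of `g₀` by a power of `p` such that `h ^ n` is
near one, `n` prime to `p`. Then for an inverse Frobenius element `t` near `h w` the Schur complement
of `R(j)(t) - 1` is congruent to `L ^ 3 α`. A root of unity `x` that is an eigenvalue of `R(j)(t)`
has degree at most `y + m` over `E`, so by (2) it is not an eigenvalue of `d(t)` modulo the maximal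
ideal, so it is one modulo the maximal ideal; and `(x - 1) / L ^ 3` is in the maximal ideal, since a
unit is excluded by the condition on `L` and all larger numbers by the shape of the matrix. This is
impossible since `α` is invertible. By compatibility one is not an eigenvalue of `ρ(j)(t ^ k)` for
any `k > 0`.
-/

set_option autoImplicit false

namespace Pool.Agent.Results.MP_97f789_ag.AbelianCovers

open NumberField Pool.Agent.Cycles

theorem result {K : Type} [Field K] [NumberField K] [Algebra K (AlgebraicClosure ℚ)] {E : Type}
    [Field E] {p : ℕ} [Fact p.Prime] (hp : p ≠ 2) (ip : E →+* ℂ_[p]) {y m : ℕ} (hy : y ≠ 1)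
    (R : (AlgebraicClosure ℚ ≃ₐ[K] AlgebraicClosure ℚ) →* Matrix (Fin y ⊕ Fin m) (Fin y ⊕ Fin m) ℂ_[p])
    (hR : Continuous R) (j : ℕ) (L : ℂ_[p]) (hL0 : L ≠ 0) (hL1 : ‖L‖ < 1)
    (hL3 : ∀ (x : ℂ_[p]) (n : ℕ), 0 < n → x ^ n = 1 → ‖L‖ ^ 3 ≠ ‖1 - x‖)
    (hL : TwoLattices (twist p R j) L) (hV : VanishingCycles (twist p R j) L)
    (g₀ : AlgebraicClosure ℚ ≃ₐ[K] AlgebraicClosure ℚ)
    (hg₀ : ∀ x : ℂ_[p], SmallRoot ip (y + m) x →
      ‖((twist p R j g₀).toBlocks₂₂ - x • 1).det‖ = 1)
    {ℓ : ℕ} [Fact ℓ.Prime] (il : E →+* PadicAlgCl ℓ) {d : ℕ}
    (ρ : (AlgebraicClosure ℚ ≃ₐ[K] AlgebraicClosure ℚ) →* Matrix (Fin d) (Fin d) (PadicAlgCl ℓ))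
    (hρ : Compatible ip il R ρ) : NoTateClasses (twist ℓ ρ j) :=
  ac_main hp ip hy R hR j L hL0 hL1 hL3 hL hV g₀ hg₀ il ρ hρ

end Pool.Agent.Results.MP_97f789_ag.AbelianCovers
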