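import Pool.Agent.Lib_helper2.K4.DefsH
import Pool.Agent.Lib_helper60.K4H.L1
import Pool.Agent.Lib_helper24.K4H.L234
import Pool.Agent.Lib_helper86.K4H.L589
import Pool.Agent.Lib_helper2.K4.HGlue
import Pool.Agent.Lib_helper66.K4M.Genus1b
import Pool.Agent.Lib_helper7.K4Z.All

set_option autoImplicit false

/-!
# MP_4132b3_nt, HeckeK4

Hecke operators on the classes `ξ(a,b)` in `K₄` of modular curves attached by F. Brunault to pairs
of torsion points, in the polylogarithmic complex of Goncharov.

`F` is an algebraically closed field of characteristic zero, `W` an elliptic curve over `F` and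
`To W` its group of torsion points.
-/

namespace Pool.Agent.Results.MP_4132b3_nt.HeckeK4

open Pool.Agent.MK4

theorem result {F : Type*} [Field F] [CharZero F] [IsAlgClosed F] [DecidableEq F]
    (W : WeierstrassCurve.Affine F) (hW : W.Δ ≠ 0) :
    ∃ (g : To W → FT F) (t : To W → To W → B2 F) (ξ : To W → To W → HK F),
      -- the Siegel units, the triangulation and the classes, and their uniqueness
      Data g t ξ ∧ (∀ g' t' ξ', Data (W := W) g' t' ξ' → g' = g ∧ t' = t ∧ ξ' = ξ) ∧
      (∀ a b, HasD (t a b) (dt g a b)) ∧ (∀ a b, Closed (ξ a b)) ∧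
      -- Manin relations, isogenies, distribution relations, Hecke operators
      Manin ξ ∧ Dist1 ξ ∧ IsogRel ξ ∧
      (∀ k, 0 < k → Dist2At k ξ) ∧ (∀ l : ℕ, l.Prime → HeckeAt l ξ) ∧
      -- the levels of the curves `X₀(N)` of genus one without complex multiplication
      ∀ N ∈ [11, 14, 15, 17, 19, 20, 21, 24], OneLine ξ N := by
  obtain ⟨t, ⟨ht, hC⟩, hu⟩ := K4D2.exists_unique_closed hW
  have hT : Tri cr (t : To W → To W → B2 F) := (tri_iff_T hW).mpr ⟨ht, hC⟩
  refine ⟨(K4M.gT : To W → FT F), t, fun a b => hk (t a b) (K4M.gT b - K4M.gT a), ⟨?_, hT, fun a b => rfl⟩, ?_,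
    fun a b => hasD_T hW hT a b, fun a b => closed_T hW hT a b, manin_T hW hT, dist1_T hW hT,
    isogRel_T hW hT, dist2At_all hW hT, heckeAt_all hW hT, level0_all (manin_T hW hT)⟩
  · intro a b h h'
    exact siegel_gT a b h h'
  · rintro g' t' ξ' ⟨h1, h2, h3⟩
    have e1 : g' = (K4M.gT : To W → FT F) := siegel_unique hW h1
    have e2 : t' = (t : To W → To W → B2 F) := hu t' ((tri_iff_T hW).mp h2)
    subst e1 e2
    exact ⟨rfl, rfl, funext fun a => funext fun b => h3 a b⟩

end Pool.Agent.Results.MP_4132b3_nt.HeckeK4
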