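import Pool.Agent.Lib_helper87.UB.Main

/-!
# Tate classes on cyclic covers: the bound by the units of the branch curve

Let `p` be a prime, `K` a number field that contains a primitive root of unity `ζ` of order `p ^ a`,
`a > 0`, and let `S` be a finite family of strata (affine spaces with a polynomial over the integers
of `K` and an integer coefficient) with the character sums `T(F)`. Let `R` be a continuous
representation of the absolute Galois group of `K` over `ℂ_[p]` with the traces `T(F)`, of degree
`y + m`, such that `R(j) = (1 + lam a, b; lam c, d)` with integral blocks, `0 < |lam| < 1`: it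
preserves two neighbouring lattices, and the Galois group acts trivially on the quotient of
dimension `y`. Suppose that

* `d(g₀) ^ M - 1` is invertible modulo the maximal ideal for some `g₀`, where `M` is divisible by
  all `n` with `φ(n) ≤ y + m`;
* whenever `d(g) - 1` is invertible modulo the maximal ideal, there are `u_i`, `v_i` with `d = 1`
  modulo the maximal ideal such that the coefficient of `X ^ e` in the characteristic polynomial of
  `a(g) - b(g) (d(g) - 1)⁻¹ c(g) + ∑ (b(u_i) c(v_i) - b(v_i) c(u_i))` is a unit.

Then for every prime `ℓ` and every `ℓ`-adic representation `V` of dimension `y + m` with the traces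
`T(F)`, the subquotients of `V(j)` on which an open subgroup of the Galois group acts trivially have
dimension at most `e`.

Example. Let `f ∈ K₀[x, y]` have degree `n` and `n` distinct points at infinity, let the curve
`C : f = 0` be unibranch (for instance smooth) and irreducible over `Qbar`, let `U` be its
complement in the plane, `K = K₀(ζ)`, `p` prime to `n`, `χ` a character of order `p ^ a`. Then
`V = H²_c(U, L_χ)` is pure of weight two and of dimension `2g + n - 1`, and for `lam = 1 - ζ` and
the twist by one the two lattices are `H²_c(U, O_χ) / lam` and `lam H²(U, O_χ)`; they reduce to the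
`p`-torsion `d` of the Jacobian `J` of the smooth projective model of `C` and to the trivial module
of the divisors of degree zero at infinity modulo `p`, `y = n - 1`; `c` is the Kummer cocycle of
these divisors on `J`, `b` is its adjoint for the Weil pairing and the standard symmetric form, and
the matrices `b(u) c(v) - b(v) c(u)` are symmetric (alternating for `p = 2`). The homotheties in the
Galois group of `J[p]` (Serre) give `g₀`, and Kummer theory on `J` (Ribet) and the positivity of the
Rosati involution give the second condition, with `e` the rank of the group of units of the affine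
curve `C` modulo constants, for all `p ≥ p₀(f)`. So `V` has at most `e` Tate classes, for every `ℓ`.
If all units of `C` are constant (this is so for a general `f` of degree at least three), or if
`f = c + l₁ ⋯ l_n` with linear `l_i` in general position (then the divisors `z = c^(1/p^a)`,
`l_i = 0` give `e = n - 1` classes), then for all `p ≥ p₀(f)`, all `a` and all `ℓ` the Tate
conjecture for divisors holds for the surface `z ^ (p ^ a) = f(x, y)` over every number field.

Proof idea. The group `T` of the elements that act trivially on all Tate subquotients of all open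
subgroups is normal, and contains an element `g₂` for which `d(g₂) - 1` is invertible (a power of a
Frobenius element near `g₀`: the roots of unity `x` such that `q ^ j x` is an eigenvalue have order
`n p ^ b` with `φ(n) ≤ y + m`). Commutators with `g₂` show that for every `u` with `d(u) = 1` there
is `v` in `T` with `d(v) = 1`, `b(v) = b(u)`, `c(v) = c(u)`; so the commutators of such elements, with
`d = 1`, `b = c = 0` and `a = b(u) c(v) - b(v) c(u)`, are in `T`. The multiplicity of the eigenvalue
one of an element of `T` near `(1 + lam a, b; lam c, d)` is at most the order of vanishing of the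
reduced characteristic polynomial of `a - b (d - 1)⁻¹ c` at zero.
-/

set_option autoImplicit false

namespace Pool.Agent.Results.MP_97f789_ag.UnitsBound

open NumberField Pool.Agent.TT Pool.Agent.TB Pool.Agent.TF Pool.Agent.RF Pool.Agent.TU
open Pool.Agent.UB

theorem result {K : Type} [Field K] [NumberField K] [Algebra K Qbar] {p a : ℕ} [Fact p.Prime]
    {ζ : 𝓞 K} (hζ : IsPrimitiveRoot ζ (p ^ a)) (ha : 0 < a) {s : ℕ} (S : Fin s → Stratum K)
    (ip : K →+* ℂ_[p]) {y m : ℕ}
    (R : (Qbar ≃ₐ[K] Qbar) →* Matrix (Fin y ⊕ Fin m) (Fin y ⊕ Fin m) ℂ_[p]) (hR : Continuous R)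
    (hRT : SumTraces (fun σ => (R σ).trace) ip (p ^ a) ζ S) (j : ℕ) (lam : ℂ_[p])
    (hlam0 : lam ≠ 0) (hlam1 : ‖lam‖ < 1) (hL : TwoLattices (fun g => cycC p g ^ j • R g) lam)
    (M : ℕ) (hM : ∀ n : ℕ, 0 < n → n.totient ≤ y + m → n ∣ M)
    (g₀ : Qbar ≃ₐ[K] Qbar) (hg₀ : ‖((cycC p g₀ ^ j • R g₀).toBlocks₂₂ ^ M - 1).det‖ = 1) (e : ℕ)
    (he : ManyBrackets (fun g => cycC p g ^ j • R g) lam e)
    {ℓ : ℕ} [Fact ℓ.Prime] (il : K →+* PadicAlgCl ℓ) {V : Type} [AddCommGroup V]
    [Module (PadicAlgCl ℓ) V] [Module.Finite (PadicAlgCl ℓ) V]
    (hV : Module.finrank (PadicAlgCl ℓ) V = y + m)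
    (π : Representation (PadicAlgCl ℓ) (Qbar ≃ₐ[K] Qbar) V)
    (hπ : SumTraces (fun σ => LinearMap.trace (PadicAlgCl ℓ) V (π σ)) il (p ^ a) ζ S) :
    TateClassesLE π j e :=
  ub_main hζ ha S ip R hR hRT j lam hlam0 hlam1 hL M hM g₀ hg₀ e he il hV π hπ

end Pool.Agent.Results.MP_97f789_ag.UnitsBound
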